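import Pool.Agent.LT.Energy

set_option autoImplicit false

open MeasureTheory Filter Topology
open scoped NNReal ENNReal

namespace Pool.Agent.Results.MP_66e5c9_pr.EventDecay

open Pool.Agent.LT

universe u

/-- For every `η > 0` there is `β₀` such that for every `β ≥ β₀` and all large `t`, the number
`log P(E_t) / (β (π² t / β)^(1/3))` is within `η` of `-6`. -/
theorem result (η : ℝ) (hη : 0 < η) : ∃ β₀ : ℝ, 0 < β₀ ∧ ∀ β : ℝ, β₀ ≤ β →
    ∀ (Ω : Type u) [MeasurableSpace Ω] (P : Measure Ω) (X : ℝ≥0 → Ω → Site), IsSRW P X →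
      ∀ᶠ t : ℝ≥0 in atTop,
        |Real.log (P (evt X β t)).toReal / (β * (Real.pi ^ 2 * t / β) ^ ((1 : ℝ) / 3)) + 6| ≤ η :=
  energy_theorem η hη

end Pool.Agent.Results.MP_66e5c9_pr.EventDecay
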