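import Pool.Agent.WSB71.TopPath
import Pool.Agent.WSB71.TopScale

set_option autoImplicit false

open MeasureTheory Filter Topology
open scoped NNReal ENNReal

namespace Pool.Agent.Results.MP_66e5c9_pr.ShapeTheorem

open Pool.Agent.LT

universe u

/-- Shape theorem for the walk conditioned on `E_t`, for every `β ≥ β₀`, with a deterministic compact
convex shape `S β` and a deterministic scale `D β`; as `β → ∞` the shape converges to the
axis-parallel square of unit diameter and `D β ~ √2 (π² / β)^(1/3)`. -/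
theorem result : ∃ β₀ : ℝ, 0 < β₀ ∧
    ∃ (S : ℝ → Set (EuclideanSpace ℝ (Fin 2))) (D : ℝ → ℝ),
    ∀ (Ω : Type u) [MeasurableSpace Ω] (P : Measure Ω) (X : ℝ≥0 → Ω → Site), IsSRW P X →
      (∀ β : ℝ, β₀ ≤ β → (S β).Nonempty ∧ IsCompact (S β) ∧ Convex ℝ (S β) ∧ 0 < D β ∧
        (∀ᶠ t : ℝ≥0 in atTop, P (evt X β t) ≠ 0) ∧
        ∀ ε > 0, Tendsto (fun t : ℝ≥0 => ProbabilityTheory.cond P (evt X β t)
          {ω | ε ≤ shapeDist (S β) X t ω ∨
            ε ≤ |Metric.diam (toPlane '' rangeUpTo X t ω) / (t : ℝ) ^ ((1 : ℝ) / 3) - D β|})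
          atTop (𝓝 0)) ∧
      Tendsto (fun β => ⨅ z : EuclideanSpace ℝ (Fin 2),
        Metric.hausdorffDist (S β) ((fun p => z + p) '' unitSquare)) atTop (𝓝 0) ∧
      Tendsto (fun β => D β * β ^ ((1 : ℝ) / 3)) atTop
        (𝓝 (Real.sqrt 2 * Real.pi ^ ((2 : ℝ) / 3))) :=
  Pool.Agent.WSB71.scale_full_of.{u} Pool.Agent.WSB71.shape_path

end Pool.Agent.Results.MP_66e5c9_pr.ShapeTheorem
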